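import Mathlib
import Pool.Agent.Lib.helper22.IM

namespace Pool.Agent.H.MP_d35c37_al

open FreeGroup hiding map_mul map_one map_inv
open Pool.Agent.Lib.Munn Pool.Agent.H.MP_ab6a8b_al Pool.Agent.Lib.IMon
open scoped Pointwise

variable {X Z : Type} {β : Z → List (X × Bool)}

def RN (β : Z → List (X × Bool)) (N : ℕ) (u v : List (Z × Bool)) : Prop := u.length ≤ N ∧ v.length ≤ N ∧ mu (hat β u) = mu (hat β v)

def FP (β : Z → List (X × Bool)) : Prop := ∃ N, ∀ u v, mu (hat β u) = mu (hat β v) → q (RN β N) u = q (RN β N) v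

theorem cover {x} {e : List (Z × Bool)} (h : x ∈ T (hat β e)) : x = 1 ∨ ∃ p b s, e = p ++ b :: s ∧ x ∈ mk (hat β p) • T (hat β [b]) := by
  induction e using List.reverseRecOn with
  | nil => exact .inl (T_nil (X := X) ▸ h :)
  | append_singleton e b ih =>
    rw [hat_app, T_app] at h
    obtain h | h := h
    · exact (ih h).imp_right fun ⟨p, c, s, a, k⟩ => ⟨p, c, s ++ [b], by simp [a], k⟩
    · exact .inr ⟨e, b, [], rfl, h⟩

theorem len_hat {L} (hL : ∀ z, (β z).length ≤ L) (w) : (hat β w).length ≤ L * w.length := by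
  induction w with
  | nil => simp [hat]
  | cons a w ih =>
    have : (hat β [a]).length ≤ L := by obtain ⟨z, _ | _⟩ := a <;> simpa [hat] using hL z
    rw [hat_cons, List.length_append, List.length_cons, mul_add]
    omega

variable [DecidableEq X]

def Cr (C : ℕ) (S : Set (Set (FreeGroup X) × FreeGroup X)) : Prop :=
  ∃ k, ∀ s ∈ S, s.2.norm ≤ C → ∃ t ∈ S, t.2 = s.2 ∧ t.1 ⊆ s.1 ∧ ∀ g ∈ t.1, g.norm ≤ k

theorem merge {C} (l : List (List (Z × Bool))) (h : ∀ w ∈ l, (mk (hat β w)).norm ≤ C) (k : (mk (hat β l.flatten)).norm ≤ C)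
    (n : 2 ≤ l.length) : ∃ l1 x y l2, l = l1 ++ x :: y :: l2 ∧ (mk (hat β (x ++ y))).norm ≤ C := by
  have inc : ∀ (l : List (List (Z × Bool))) (g : FreeGroup X) a, (∀ w ∈ a :: l, (mk (hat β w)).norm ≤ C) → g.norm ≤ (g * mk (hat β a)).norm →
      (∃ l1 x y l2, a :: l = l1 ++ x :: y :: l2 ∧ (mk (hat β (x ++ y))).norm ≤ C) ∨
        (g * mk (hat β a)).norm ≤ (g * mk (hat β (a :: l).flatten)).norm := fun l => by
    induction l with
    | nil => simp
    | cons b l ih =>
      intro g a h k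
      rcases le_total (g * mk (hat β a) * mk (hat β b)).norm (g * mk (hat β a)).norm with c | c
      · exact .inl ⟨[], a, b, l, rfl, by
          simpa [hat_app, ← mul_mk, mul_assoc] using tri k c (by simpa using h a (by simp)) (by rw [inv_mul_cancel_left]; exact h b (by simp))⟩
      · refine (ih _ b (fun w k => h w (.tail _ k)) c).imp (fun ⟨l1, x, y, l2, e, f⟩ => ⟨a :: l1, x, y, l2, by simp [e], f⟩) fun d => ?_
        simpa [hat_app, ← mul_mk, mul_assoc] using c.trans d
  obtain _ | ⟨a, _ | ⟨b, l⟩⟩ := l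
  · simp at n
  · simp at n
  rcases le_total (mk (hat β a) * mk (hat β b)).norm (mk (hat β a)).norm with c | c
  · exact ⟨[], a, b, l, rfl, by simpa [hat_app, ← mul_mk] using c.trans (h a (by simp))⟩
  · obtain ⟨l1, x, y, l2, e, f⟩ | d := inc l _ b (fun w k => h w (.tail _ k)) c
    · exact ⟨a :: l1, x, y, l2, by simp [e], f⟩
    · exact ⟨[], a, b, l, rfl, by simpa [hat_app, ← mul_mk] using d.trans (by simpa [hat_app, ← mul_mk] using k)⟩

theorem suf [Finite X] {L} (hL : ∀ z, (β z).length ≤ L) (h : Cr (2 * L) (Set.range fun w => mu (hat β w))) : FP β := by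
  obtain ⟨N, N1, hN⟩ : ∃ N, 1 ≤ N ∧ ∀ w, (mk (hat β w)).norm ≤ 2 * L →
      ∃ v, v.length ≤ N ∧ mk (hat β v) = mk (hat β w) ∧ T (hat β v) ⊆ T (hat β w) := by
    obtain ⟨k, h⟩ := h
    refine ⟨Nat.card (Set (Fin k → Option (X × Bool)) × Set (Fin k → Option (X × Bool))) + 1, by simp, fun w a => ?_⟩
    obtain ⟨_, ⟨v, rfl⟩, b, c, d⟩ := h _ ⟨w, rfl⟩ a
    obtain ⟨u, e, f⟩ := short (fun v => (code k (T (hat β v)), code k {mk (hat β v)})) (P := fun u => mu (hat β u) = mu (hat β v))
      (fun u m s a b => by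
        simp only [hat_app] at a b ⊢
        exact (mu_code (by rwa [show T _ = T (hat β v) from congrArg Prod.fst a]) (congrArg Prod.fst b) (congrArg Prod.snd b)).symm.trans a) rfl
    exact ⟨u, f.le.trans (Nat.le_succ _), (congrArg Prod.snd e).trans b, (congrArg Prod.fst e).le.trans c⟩
  let M := (L + 1) * (2 * N + 2)
  have M1 : 2 * N + 2 ≤ M := Nat.le_mul_of_pos_left _ (Nat.succ_pos _)
  let R := RN β (3 * M)
  have sr : ∀ u v, u.length ≤ M → v.length ≤ M → mk (hat β v) = mk (hat β u) → T (hat β v) ⊆ T (hat β u) → Le (q R u) (q R v) :=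
    fun u v a b c d => ⟨q R u, (q_rel (R := R) (v := u ++ invRev u ++ v) ⟨by omega, by simp; omega, by
      simp [mu, hat_app, hat_inv, T_app, T_inv, ← inv_mk, ← mul_mk, c, Set.smul_set_union, Set.union_eq_self_of_subset_right d]⟩).trans
        (by rw [q_app, q_app, q_inv])⟩
  let Sc := fun w => ∃ v, v.length ≤ N ∧ mk (hat β v) = mk (hat β w) ∧ Le (q R w) (q R v)
  have l1 : ∀ a, (hat β [a]).length ≤ L := fun a => by simpa using len_hat hL [a]
  have sc : ∀ w, (mk (hat β w)).norm ≤ 2 * L → Sc w := fun w a => by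
    suffices ∀ n (l : List (List (Z × Bool))), l.length = n → (∀ w ∈ l, Sc w ∧ (mk (hat β w)).norm ≤ 2 * L) →
        (mk (hat β l.flatten)).norm ≤ 2 * L → Sc l.flatten by
      have e : (w.map ([·])).flatten = w := by clear * -; induction w <;> simp [*]
      exact e ▸ this _ (w.map ([·])) rfl (List.forall_mem_map.2 fun a _ => ⟨⟨[a], N1, rfl, .rfl⟩, norm_mk_le.trans (by have := l1 a; omega)⟩)
        (by rwa [e])
    intro n
    induction n using Nat.strong_induction_on with | _ n ih => ?_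
    rintro l rfl b c
    by_cases d : 2 ≤ l.length
    · obtain ⟨l1, x, y, l2, rfl, e⟩ := merge l (fun w k => (b w k).2) c d
      obtain ⟨x', x1, x2, x3⟩ := (b x (by simp)).1
      obtain ⟨y', y1, y2, y3⟩ := (b y (by simp)).1
      have f : mk (hat β (x' ++ y')) = mk (hat β (x ++ y)) := by simp only [hat_app, ← mul_mk, x2, y2]
      obtain ⟨v, v1, v2, v3⟩ := hN (x' ++ y') (f ▸ e)
      simpa using ih _ (by simp) (l1 ++ (x ++ y) :: l2) rfl (by
        simp only [List.forall_mem_append, List.forall_mem_cons] at b ⊢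
        exact ⟨b.1, ⟨⟨v, v1, v2.trans f, (x3.mul y3).trans (sr (x' ++ y') v (by simp; omega) (by omega) v2 v3)⟩, e⟩, b.2.2.2⟩) (by simpa using c)
    obtain _ | ⟨a, _ | _⟩ := l
    · exact ⟨[], Nat.zero_le _, rfl, .rfl⟩
    · simpa using (b a (by simp)).1
    · simp at d
  refine ⟨3 * M, fun u v => q_fin (fun w a => ?_) fun a e b => ?_⟩
  · obtain ⟨v, v1, v2, v3⟩ := sc w (by simp [a])
    exact v3.trans (sr v [] (by omega) (Nat.zero_le _) (v2.trans a).symm (by simpa [hat, T_nil] using one_T _))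
  have : ∀ n, ∃ f, f.length ≤ n * (2 * N + 2) ∧ mk (hat β f) = 1 ∧ (∀ i < n, mk ((hat β [a]).take i) ∈ T (hat β f)) ∧
      Le (q R e * (q R e)⁻¹) (q R f) := fun n => by
    induction n with
    | zero => exact ⟨[], Nat.zero_le _, rfl, by simp, le_one _⟩
    | succ n ih =>
      obtain ⟨f, f1, f2, f3, f4⟩ := ih
      obtain c | ⟨p, c, s, rfl, d⟩ := cover (b ⟨n, rfl⟩)
      · exact ⟨f, f1.trans (by gcongr; simp), f2, Nat.forall_lt_succ_right.2 ⟨f3, c ▸ one_T _⟩, f4⟩
      obtain ⟨v, v1, v2, v3⟩ := sc p (by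
        obtain ⟨y, d, e⟩ := d
        have : (mk ((hat β [a]).take n) * y⁻¹).norm ≤ _ := norm_mul_le ..
        have i := T_len d
        have j := T_len (w := hat β [a]) ⟨n, rfl⟩
        have := l1 a
        have := l1 c
        rw [norm_inv_eq] at *
        rw [eq_mul_inv_of_mul_eq e]
        unfold FreeGroup.norm at *
        omega)
      have t : T (hat β (f ++ (v ++ [c] ++ invRev (v ++ [c])))) = T (hat β f) ∪ (T (hat β v) ∪ mk (hat β v) • T (hat β [c])) := by
        rw [hat_app, hat_app _ (invRev _), hat_inv, T_app, T_app, T_inv, f2, one_smul, smul_inv_smul, Set.union_self, hat_app, T_app]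
      refine ⟨f ++ (v ++ [c] ++ invRev (v ++ [c])), by simp [add_mul]; omega, by rw [hat_app, hat_app _ (invRev _), hat_inv]; simp [← mul_mk, ← inv_mk, f2],
        Nat.forall_lt_succ_right.2 ⟨fun i k => t ▸ .inl (f3 i k), t ▸ .inr (.inr (v2 ▸ d))⟩, f4.inf (c := q R (v ++ [c] ++ invRev (v ++ [c]))) ?_⟩
      rw [List.append_cons, q_app, q_app _ (invRev _), q_inv, q_app p, q_app v]
      exact (dom_mul ..).trans (v3.right _).dom
  obtain ⟨f, f1, f2, f3, f4⟩ := this (L + 1)
  refine f4.trans (q_inv [a] ▸ sr f ([a] ++ invRev [a]) f1 (by simp; omega) (by rw [hat_app, hat_inv, f2]; simp [← mul_mk, ← inv_mk]) ?_)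
  rw [hat_app, hat_inv, T_app, T_inv, smul_inv_smul, Set.union_self]
  rintro _ ⟨i, rfl⟩
  simpa [← List.take_take] using f3 (min i (hat β [a]).length) (by have := l1 a; omega)

end Pool.Agent.H.MP_d35c37_al
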