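import Mathlib
import Pool.Agent.H.MP_d35c37_al.Suf

namespace Pool.Agent.H.MP_d35c37_al

open FreeGroup hiding map_mul map_one map_inv
open Pool.Agent.Lib.Munn Pool.Agent.H.MP_ab6a8b_al Pool.Agent.Lib.IMon
open Pool.Agent.H.MP_874ce0_al (run run_app run_idem run_cons)
open scoped Pointwise Classical

attribute [-simp] inv_mk mul_mk

variable {X Z : Type} {β : Z → List (X × Bool)}

noncomputable def Sm (β : Z → List (X × Bool)) (χ : FreeGroup X → ℤ) (K : Set (FreeGroup X)) : FreeGroup X → List (Z × Bool) → ℤ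
  | _, [] => 0
  | g, a :: u => (if g ∈ K then χ (g * mk (hat β [a])) - χ g else 0) + Sm β χ K (g * mk (hat β [a])) u

variable {χ : FreeGroup X → ℤ} {K P : Set (FreeGroup X)}

theorem Sm_app (g u v) : Sm β χ K g (u ++ v) = Sm β χ K g u + Sm β χ K (g * mk (hat β u)) v := by
  induction u generalizing g with
  | nil => simp [Sm, hat, ← one_eq_mk]
  | cons a u ih => simp only [List.cons_append, Sm, ih, hat_cons a u, ← mul_mk, mul_assoc, add_assoc]

theorem Sm_in {g u} (h : ∀ p a s, u = p ++ a :: s → χ (g * mk (hat β p) * mk (hat β [a])) ≠ χ (g * mk (hat β p)) → g * mk (hat β p) ∈ K) :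
    Sm β χ K g u = χ (g * mk (hat β u)) - χ g := by
  induction u generalizing g with
  | nil => simp [Sm, hat, ← one_eq_mk]
  | cons a u ih =>
    have := h [] a u rfl
    rw [show g * mk (hat β []) = g from mul_one g] at this
    rw [Sm, ih fun p b s e => by simpa only [hat_cons a p, ← mul_mk, mul_assoc] using h (a :: p) b s (by simp [e]), hat_cons a u, ← mul_mk,
      ← mul_assoc]
    split_ifs with k
    · ring
    · rw [not_not.1 (mt this k), zero_add]

theorem Sm_out {g u} (h : ∀ p a s, u = p ++ a :: s → χ (g * mk (hat β p) * mk (hat β [a])) ≠ χ (g * mk (hat β p)) → g * mk (hat β p) ∉ K) :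
    Sm β χ K g u = 0 := by
  induction u generalizing g with
  | nil => rfl
  | cons a u ih =>
    have := h [] a u rfl
    rw [show g * mk (hat β []) = g from mul_one g] at this
    rw [Sm, ih fun p b s e => by simpa only [hat_cons a p, ← mul_mk, mul_assoc] using h (a :: p) b s (by simp [e])]
    split_ifs with k
    · rw [not_not.1 (mt this (not_not.2 k)), sub_self, add_zero]
    · rfl

noncomputable def dt (β : Z → List (X × Bool)) (χ : FreeGroup X → ℤ) (K P : Set (FreeGroup X)) (c : FreeGroup X × ℤ) (a : Z × Bool) :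
    Option (FreeGroup X × ℤ) := if c.1 • T (hat β [a]) ⊆ P then some (c.1 * mk (hat β [a]), c.2 + Sm β χ K c.1 [a]) else none

theorem run_dt {c : FreeGroup X × ℤ} (h : c.1 ∈ P) (u) : run (dt β χ K P) c u =
    if c.1 • T (hat β u) ⊆ P then some (c.1 * mk (hat β u), c.2 + Sm β χ K c.1 u) else none := by
  induction u generalizing c with
  | nil => simp [run, hat, T_nil, h, Sm, ← one_eq_mk]
  | cons a u ih =>
    rw [run_cons, dt, hat_cons a u, T_app, Set.smul_set_union, ← mul_smul]
    by_cases k : c.1 • T (hat β [a]) ⊆ P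
    · rw [if_pos k, Option.bind_some, ih (k ⟨_, mk_T _, rfl⟩)]
      simp [k, Sm, ← mul_mk, mul_assoc, add_assoc]
    · simp [k]

theorem T_mid (g : FreeGroup X) (p a s) : (g * mk (hat β p)) • T (hat β [a]) ⊆ g • T (hat β (p ++ a :: s)) := by
  rw [hat_app, hat_cons a s, T_app, T_app, mul_smul]
  exact Set.smul_set_mono ((Set.smul_set_mono Set.subset_union_left).trans Set.subset_union_right)

theorem nec [Finite X] {L} (hL : ∀ z, (β z).length ≤ L) (h : FP β) (C) : Cr C (Set.range fun w => mu (hat β w)) := by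
  obtain ⟨N, hN⟩ := h
  have l1 : ∀ u, ∀ g ∈ T (hat β u), g.norm ≤ L * u.length := fun u g k => (T_len k).trans (len_hat hL u)
  obtain ⟨C', hC⟩ : ∃ C', ∀ w, (mk (hat β w)).norm ≤ C → ∃ v, mk (hat β v) = mk (hat β w) ∧ ∀ g ∈ T (hat β v), g.norm ≤ C' := by
    let f : FreeGroup X → ℕ := fun g => if h : ∃ v, mk (hat β v) = g then L * h.choose.length else 0
    obtain ⟨C', hC⟩ := (((List.finite_length_le (X × Bool) C).image mk).image f).bddAbove
    refine ⟨C', fun w a => ?_⟩
    have e : ∃ v, mk (hat β v) = mk (hat β w) := ⟨w, rfl⟩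
    exact ⟨_, e.choose_spec, fun g k => (l1 _ g k).trans ((dif_pos e).ge.trans (hC ⟨_, ⟨_, a, mk_toWord⟩, rfl⟩))⟩
  let D := 2 * L + 2 * (L * N)
  let M := Nat.card (Set (Fin D → Option (X × Bool)))
  let r := C' + D + 1
  refine ⟨r + D + L * M + L, ?_⟩
  rintro _ ⟨w, rfl⟩ a
  obtain ⟨v, v1, v2⟩ := hC w a
  let S := {u | mk (hat β u) = mk (hat β w) ∧ T (hat β u) ⊆ T (hat β w)}
  obtain ⟨u, ⟨u1, u2⟩, u3⟩ := WellFounded.has_min (measure List.length).wf S ⟨w, rfl, le_rfl⟩
  refine ⟨_, ⟨u, rfl⟩, u1, u2, fun y hy => by_contra fun c => ?_⟩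
  obtain ⟨p, s, rfl, d⟩ : ∃ p s, u = p ++ s ∧ r + D + L * M < (mk (hat β p)).norm := by
    obtain rfl | ⟨p, b, s, e, z, i, rfl⟩ := cover hy
    · simp at c
    · have := l1 _ _ i
      have := norm_mul_le (mk (hat β p)) z
      exact ⟨p, _, e, by simp at *; omega⟩
  let x := (mk (hat β p)).toWord.take r
  have x1 : (mk x).norm = r := by
    rw [FreeGroup.norm, toWord_mk, IsReduced.reduce_eq (List.IsChain.take isReduced_toWord r), List.length_take_of_le (by
      unfold FreeGroup.norm at d; omega)]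
  have x2 : ∀ g, r ≤ ((mk x)⁻¹ * g).norm + g.norm := fun g => by
    simpa only [x1, norm_inv_eq, add_comm, mul_inv_rev, inv_inv, mul_inv_cancel_left] using
      (norm_mul_le g ((mk x)⁻¹ * g)⁻¹).trans_eq (congrArg _ norm_inv_eq)
  let χ : FreeGroup X → ℤ := fun g => if x <+: g.toWord then 1 else 0
  let B := T (hat β w) ∩ {g | ((mk x)⁻¹ * g).norm ≤ D}
  let K := {g | ∃ p' p'' t, p = p' ++ p'' ∧ mk (hat β p') • T (hat β t) ⊆ B ∧ g = mk (hat β p') * mk (hat β t)}
  let P := T (hat β v) ∪ T (hat β w)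
  have k1 : ∀ g t, g ∈ K → g • T (hat β t) ⊆ B → g * mk (hat β t) ∈ K := by
    rintro _ t ⟨p', p'', t', e, k, rfl⟩ l
    exact ⟨p', p'', t' ++ t, e, by rw [hat_app, T_app, Set.smul_set_union, ← mul_smul]; exact Set.union_subset k l,
      by rw [hat_app, ← mul_mk, mul_assoc]⟩
  have k2 : ∀ g t, g • T (hat β t) ⊆ B → (g * mk (hat β t) ∈ K ↔ g ∈ K) := fun g t l =>
    ⟨fun k => by simpa [hat_inv, ← inv_mk] using k1 _ (invRev t) k (by simpa [hat_inv, T_inv, ← mul_smul] using l), fun k => k1 g t k l⟩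
  have c1 : ∀ g a, χ (g * mk (hat β [a])) ≠ χ g → ((mk x)⁻¹ * g).norm ≤ L := fun g a k => by
    have := l1 _ _ (mk_T (hat β [a]))
    simp only [χ] at k
    split_ifs at k with i j j
    · exact (k rfl).elim
    · exact (cross i j).2.trans (by simpa [mul_assoc] using this)
    · exact (cross j i).1.trans (by simpa using this)
    · exact (k rfl).elim
  have c2 : ∀ g, g ∈ P → ((mk x)⁻¹ * g).norm ≤ D → g ∈ B := fun g i j => ⟨i.resolve_left fun i => by
    have := v2 g i
    have := x2 g
    omega, j⟩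
  have c3 : ∀ g t, g • T (hat β t) ⊆ P → ((mk x)⁻¹ * g).norm + L * t.length ≤ D → g • T (hat β t) ⊆ B := by
    rintro g t i j _ ⟨z, k, rfl⟩
    refine c2 _ (i ⟨z, k, rfl⟩) ?_
    have := l1 _ _ k
    have := norm_mul_le ((mk x)⁻¹ * g) z
    simp only [smul_eq_mul, ← mul_assoc]
    omega
  have hV : ∀ c a c', c.1 ∈ P → dt β χ K P c a = some c' → c'.1 ∈ P ∧ dt β χ K P c' (a.1, !a.2) = some c := fun c a c' i j => by
    simp only [dt, Option.ite_none_right_eq_some, Option.some.injEq] at j
    obtain ⟨j, rfl⟩ := j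
    refine ⟨j ⟨_, mk_T _, rfl⟩, ?_⟩
    rw [dt, show [(a.1, !a.2)] = invRev [a] from rfl, hat_inv, T_inv, ← mul_smul, mul_inv_cancel_right, if_pos j, ← inv_mk, mul_inv_cancel_right]
    refine congrArg _ (Prod.ext rfl ?_)
    change c.2 + (_ + 0) + (ite _ (χ (_ * mk (hat β (invRev [a]))) - _) _ + 0) = c.2
    rw [hat_inv, ← inv_mk, mul_inv_cancel_right]
    by_cases k : χ (c.1 * mk (hat β [a])) = χ c.1
    · simp [k]
    · rw [k2 _ _ (c3 _ _ j (by have := c1 _ _ k; simp; omega))]
      split_ifs <;> ring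
  have sh : ∀ g t, t.length ≤ N → g • T (hat β t) ⊆ P → Sm β χ K g t =
      if g • T (hat β t) ⊆ B ∧ g ∈ K then χ (g * mk (hat β t)) - χ g else 0 := fun g t i j => by
    have : ∀ p a s, t = p ++ a :: s → g • T (hat β t) ⊆ B → (g * mk (hat β p) ∈ K ↔ g ∈ K) := fun p a s e k =>
      k2 _ _ (.trans (Set.smul_set_mono (by rw [e, hat_app]; exact T_left ..)) k)
    split_ifs with k
    · exact Sm_in fun p a s e _ => (this p a s e k.1).2 k.2
    refine Sm_out fun p a s e l m => ?_
    have f : g • T (hat β t) ⊆ B := c3 _ _ j (by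
      have := c1 _ _ l
      have := norm_mul_le ((mk x)⁻¹ * (g * mk (hat β p))) (mk (hat β p))⁻¹
      have := l1 t (mk (hat β p)) (by rw [e, hat_app]; exact T_left _ _ (mk_T _))
      have : L * t.length ≤ L * N := by gcongr
      simp [mul_assoc] at *
      omega)
    exact k ⟨f, (this p a s e f).1 m⟩
  have u4 : T (hat β (p ++ s)) ⊆ P := u2.trans Set.subset_union_right
  have o : ((1 : FreeGroup X), (0 : ℤ)).1 ∈ P := .inl (one_T _)
  have := sound hV (fun t t' ⟨i, j, e⟩ c k => by
    obtain ⟨e1, e2⟩ : T _ = T _ ∧ mk _ = mk _ := Prod.ext_iff.1 e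
    rw [run_dt k, run_dt k, ← e1, ← e2]
    split_ifs with l
    · rw [sh _ _ i l, sh _ _ j (e1 ▸ l), e1, e2]
    · rfl) (hN (p ++ s ++ invRev (p ++ s) ++ v) (v ++ invRev v ++ (p ++ s)) (by
      generalize p ++ s = u at u1
      simp [mu, hat_app, hat_inv, T_app, T_inv, ← inv_mk, ← mul_mk, u1, v1, Set.smul_set_union, Set.union_comm, Set.union_left_comm, ← Set.union_assoc])) _ o
  rw [run_app, run_app _ _ (v ++ _), run_idem hV o, run_idem hV o, run_dt o, run_dt o, one_smul, one_smul, if_pos u4,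
    if_pos Set.subset_union_left, Option.map_some, Option.map_some, Option.bind_some, Option.bind_some, run_dt o, run_dt o, one_smul, one_smul, if_pos u4,
    if_pos Set.subset_union_left, Sm_app, Sm_out (u := v), Sm_out (u := s), Sm_in] at this
  · have : (0 : ℤ) = χ (mk (hat β p)) - χ 1 := by simpa using congrArg Prod.snd (Option.some.inj this)
    have e : x ≠ [] := fun e => by simp [e, ← one_eq_mk, r] at x1
    simp only [χ, if_pos (List.take_prefix ..), toWord_one, List.prefix_nil, if_neg e, x] at this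
    omega
  · rintro p' a s' rfl l
    have := T_mid (β := β) 1 p' a (s' ++ s)
    simp only [one_mul, one_smul] at *
    exact ⟨p', _, [], rfl, c3 _ _ (by
      rw [show T (hat β []) = _ from T_nil]
      simpa using u4 (by simpa using this ⟨_, one_T _, rfl⟩)) (by have := c1 _ _ l; simp; omega),
      (mul_one _).symm⟩
  · rintro s' a s'' rfl - ⟨p', p'', t, rfl, i, j⟩
    obtain ⟨t', ⟨i', j'⟩, l⟩ := short (fun t => code D {(mk x)⁻¹ * (mk (hat β p') * mk (hat β t))})
      (P := fun t' => mk (hat β p') • T (hat β t') ⊆ B ∧ mk (hat β t') = mk (hat β t)) (fun t m s ⟨a, b⟩ e => by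
        have a1 := a ⟨_, hat_app _ s ▸ T_left _ _ (mk_T _), rfl⟩
        have a2 := a ⟨_, (List.append_assoc t m s).symm ▸ hat_app t _ ▸ T_left _ _ (mk_T _), rfl⟩
        have : mk (hat β (t ++ m)) = mk (hat β t) := by
          simpa using code_inj (fun g k => k ▸ a1.2) (fun g k => k ▸ a2.2) e
        rw [hat_app, T_app, this, hat_app, T_app] at a
        rw [hat_app, ← mul_mk, this] at b
        exact ⟨hat_app .. ▸ T_app .. ▸ .trans (Set.smul_set_mono (Set.union_subset_union_left _ Set.subset_union_left)) a,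
          by rwa [hat_app, ← mul_mk]⟩) ⟨i, rfl⟩
    have e : mk (hat β (p' ++ t')) = mk (hat β (p' ++ p'' ++ s')) := by simpa only [hat_app, ← mul_mk, j', one_mul] using j.symm
    rw [← List.append_assoc] at u1 u2 u3
    have := u3 (p' ++ t' ++ a :: s'') ⟨by rw [← u1, hat_app, hat_app _ (a :: _), ← mul_mk, ← mul_mk, e], by
      rw [hat_app, T_app, e, hat_app, T_app]
      rw [hat_app, T_app, List.append_assoc, hat_app p', T_app, Set.union_subset_iff, Set.union_subset_iff] at u2
      exact Set.union_subset (Set.union_subset u2.1.1 (i'.trans Set.inter_subset_left)) (by rw [List.append_assoc, hat_app]; exact u2.2)⟩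
    have b1 := (i ⟨_, one_T _, rfl⟩).2
    have b2 := l1 _ _ (mk_T (hat β p''))
    have b3 := norm_mul_le (mk (hat β p')) (mk (hat β p''))
    have b4 := norm_mul_le (mk x) ((mk x)⁻¹ * mk (hat β p'))
    have b5 : L * p''.length ≤ L * M := by
      simp [InvImage, WellFoundedRelation.rel] at this
      gcongr
      omega
    simp [hat_app, ← mul_mk] at b1 b4 d
    omega
  · intro p' a s' e l
    have := c1 _ _ l
    have := v2 (mk (hat β p')) (by rw [e, hat_app]; exact T_left _ _ (mk_T _))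
    have := x2 (mk (hat β p'))
    simp only [one_mul] at *
    omega

end Pool.Agent.H.MP_d35c37_al
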