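import Mathlib
import Pool.Agent.H.MP_d35c37_al.Nec
import Pool.Agent.H.MP_5c1719_al.B
import Pool.Agent.H.MP_ab6a8b_al.B

namespace Pool.Agent.H.MP_d35c37_al

open FreeGroup hiding map_mul map_one map_inv
open Pool.Agent.Lib.Munn Pool.Agent.H.MP_ab6a8b_al Pool.Agent.H.MP_5c1719_al Pool.Agent.Lib.TA Pool.Agent.Lib.Benois
open scoped Pointwise

variable {X : Type}

abbrev G3 := (((Prop × Prop) × Prop) × Prop) × Prop × Prop

def Bad (A : Au X) (t : List (X × Bool) → G3) : Prop :=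
  V (fun x => (t x).2) ∧ Ph A (fun x => ov (t x).1.1.1 (t x).2) ∧ (∀ x, (t x).2.2 → (t x).1.1.2) ∧
    ¬ ∃ y, Fs y ∧ V y ∧ Ph A (fun x => ov (t x).1.1.1 (y x)) ∧ ∀ x, ((y x).2 ↔ (t x).2.2) ∧ ((y x).1 → (t x).2.1 ∧ (t x).1.2)

theorem ur_Bad [Finite X] : UR sz (Bad (X := X)) :=
  (ur_V.map (Δ := fun _ => G3) fun _ x => x.2).and ((ur_Ph.map (Δ := fun _ => G3) fun _ x => ov x.1.1.1 x.2).and
    ((ur_pt (Γ := fun _ => G3) fun _ x => x.2.2 → x.1.1.2).and ((ur_V.map (Δ := fun _ => G3 × Prop × Prop) fun _ x => x.2).and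
      ((ur_Ph.map (Δ := fun _ => G3 × Prop × Prop) fun _ x => ov x.1.1.1.1 x.2).and
        (ur_pt (Γ := fun _ => G3 × Prop × Prop) fun _ x => (x.2.2 ↔ x.1.2.2) ∧ (x.2.1 → x.1.2.1 ∧ x.1.1.2)))).ex.not))

variable [DecidableEq X]

def ball (C : ℕ) : List (X × Bool) → Prop := lf {g | g.norm ≤ C}

theorem ht_ball {C k} (h : C < k) : Ht (ball (X := X) C) k := fun x l => eq_false fun e => by
  have := e.2
  simp only [Set.mem_ofPred_eq, FreeGroup.norm, e.eq] at this
  omega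

def Ok (A : Au X) (C : ℕ) (S : List (X × Bool) → Prop) (w : List (X × Bool)) : Prop :=
  K A (mu w) → (mk w).norm ≤ C → ∃ v, K A (mu v) ∧ mk v = mk w ∧ T v ⊆ T w ∧ ∀ g ∈ T v, S g.toWord

theorem Bad_enc (A : Au X) (C S w) : Bad A (pr (pr (pr (enc (invRev [])) (ball C)) S) (enc w)) ↔ ¬ Ok A C S w := by
  simp only [Ok, Classical.not_imp]
  refine (and_iff_right (V_enc w)).trans (and_congr (Ph_enc A [] w) (and_congr ⟨fun h => lf_word.1 (h _ (lf_one.2 rfl)),
    fun h x k => ⟨k.1, k.2 ▸ h⟩⟩ (not_congr ⟨fun ⟨y, f, a, b, c⟩ => ?_, fun ⟨v, a, b, c, d⟩ => ⟨_, fs_enc v, V_enc v, (Ph_enc A [] v).2 a,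
      fun x => ⟨by simp [enc, pr, b], fun k => ⟨⟨k.1, c k.2⟩, k.eq ▸ d _ k.2⟩⟩⟩⟩)))
  obtain ⟨v, rfl⟩ := V.enc f a
  exact ⟨v, (Ph_enc A [] v).1 b, (lf_word (S := {mk w})).1 ((c _).1.1 (lf_one.2 rfl)), fun g k => lf_word.1 ((c _).2 (lf_word.2 k)).1,
    fun g k => ((c _).2 (lf_word.2 k)).2⟩

theorem Ok_iff (A : Au X) (C S) : (∀ w, Ok A C S w) ↔ ¬ ∃ y, Fs y ∧ Bad A (pr (pr (pr (enc (invRev [])) (ball C)) S) y) := by
  refine ⟨fun h ⟨y, f, k⟩ => ?_, fun h w => by_contra fun k => h ⟨_, fs_enc w, (Bad_enc ..).2 k⟩⟩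
  obtain ⟨w, rfl⟩ := V.enc f k.1
  exact (Bad_enc ..).1 k (h w)

theorem Cr_iff (A : Au X) (C) : Cr C {m | K A m} ↔ ∃ k, ∀ w, Ok A C (ball k) w := by
  refine exists_congr fun k => ⟨fun h w a b => ?_, fun h s a b => ?_⟩
  · obtain ⟨t, c, d⟩ := h _ a b
    obtain ⟨v, -, -, -, rfl⟩ := id c
    exact ⟨v, c, d.1, d.2.1, fun g i => lf_word.2 (d.2.2 g i)⟩
  · obtain ⟨w, -, -, -, rfl⟩ := id a
    obtain ⟨v, c, d⟩ := h w a b
    exact ⟨_, c, d.1, d.2.1, fun g i => lf_word.1 (d.2.2 g i)⟩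

theorem pp_Cr [Finite X] [Primcodable X] : PrimrecRel fun (A : Au X) C => Cr C {m | K A m} := by
  obtain ⟨c, pc, hc⟩ := sh (X := X)
  obtain ⟨b1, p1, h1⟩ := (ur_Bad (X := X)).ex.not
  obtain ⟨b2, p2, h2⟩ := ur_Bad (X := X)
  obtain ⟨L, -, hL⟩ := Finite.exists_univ_list (X × Bool)
  have s : Primrec (sz (X := X)) := Primrec.succ.comp ((Primrec.list_foldr (h := fun _ (p : (ℕ × Option (X × Bool) × ℕ) × ℕ) =>
    p.1.1 + p.1.2.2 + p.2) .fst (.const 0) ((Primrec.nat_add.comp (Primrec.nat_add.comp (Primrec.fst.comp .fst)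
      (Primrec.snd.comp (Primrec.snd.comp .fst))) .snd).comp .snd).to₂).of_eq fun A => by induction A.1 <;> simp [*])
  have m : ∀ N y, y ∈ allW L N ↔ y.length ≤ N := by simp [mem_allW, hL]
  let k : Au X × ℕ → ℕ := fun p => p.2 + 1 + b1 (sz p.1)
  have pk : Primrec k := Primrec.nat_add.comp (Primrec.succ.comp .snd) (p1.comp (s.comp .fst))
  have hp : ∀ C j, C < j → Ht (pr (enc (X := X) (invRev [])) (ball C)) j := fun C j h x l =>
    Prod.ext (ht_enc (by simp; omega) x l) (ht_ball h x l)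
  refine (pp_all (R := fun p w => ¬ K p.1 (mu w) ∨ ¬ (reduce w).length ≤ p.2 ∨ ∃ v ∈ allW L (c (k p + 1)), K p.1 (mu v) ∧
    mu (w ++ invRev w ++ v) = mu w ∧ ∀ i ∈ List.range (v.length + 1), (reduce (v.take i)).length ≤ k p)
    (pr_allW.comp (.const L) (pc.comp (Primrec.nat_add.comp (Primrec.succ.comp pk) (p2.comp (s.comp .fst)))))
    ((pp_K.comp ((Primrec.fst.comp .fst).pair .snd)).not.or ((Primrec.nat_le.comp (Primrec.list_length.comp (pr_red.comp .snd))
      (Primrec.snd.comp .fst)).not.or (pp_ex (pr_allW.comp (.const L) (pc.comp (Primrec.succ.comp (pk.comp .fst))))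
      ((pp_K.comp ((Primrec.fst.comp (Primrec.fst.comp .fst)).pair .snd)).and ((pp_mu'.comp (Primrec.list_append.comp
        (Primrec.list_append.comp (Primrec.snd.comp .fst) (pr_inv.comp (Primrec.snd.comp .fst))) .snd) (Primrec.snd.comp .fst)).and
        (pp_all (Primrec.list_range.comp (Primrec.succ.comp (Primrec.list_length.comp .snd))) (Primrec.nat_le.comp (Primrec.list_length.comp
          (pr_red.comp (Primrec.list_take.comp .snd (Primrec.snd.comp .fst)))) (pk.comp (Primrec.fst.comp (Primrec.fst.comp .fst))))))))))).of_eq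
    fun ⟨A, C⟩ => ?_
  have e : ∀ w, (¬ K A (mu w) ∨ ¬ (reduce w).length ≤ C ∨ ∃ v ∈ allW L (c (k (A, C) + 1)), K A (mu v) ∧
      mu (w ++ invRev w ++ v) = mu w ∧ ∀ i ∈ List.range (v.length + 1), (reduce (v.take i)).length ≤ k (A, C)) ↔ Ok A C (ball (k (A, C))) w := by
    have f : ∀ v w : List (X × Bool), mu (w ++ invRev w ++ v) = mu w ↔ mk v = mk w ∧ T v ⊆ T w := by
      simp [mu, T_app, T_inv, ← inv_mk, ← mul_mk, Set.smul_set_union, and_comm]
    intro w
    simp only [Ok, imp_iff_not_or, f]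
    refine or_congr_right (or_congr_right ⟨fun ⟨v, _, a, b, d⟩ => ⟨v, a, b.1, b.2, ?_⟩, fun ⟨v, a, b, d, e⟩ => ?_⟩)
    · rintro _
      rw [← imp_iff_not_or]
      rintro ⟨i, rfl⟩
      exact lf_word.2 (by simpa [← List.take_take, FreeGroup.norm] using (d (min i v.length)).resolve_left (by simp))
    · simp only [← imp_iff_not_or] at e ⊢
      obtain ⟨u, i, j⟩ := hc (k (A, C) + 1) v fun y l i => cast (ht_ball (Nat.lt_succ_self _) y l) (i.eq ▸ e _ i.2)
      obtain ⟨i1, i2⟩ : T u = T v ∧ mk u = mk v := Prod.ext_iff.1 i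
      exact ⟨u, (m ..).2 j, i ▸ a, ⟨i2 ▸ b, i1 ▸ d⟩, fun n _ => lf_word.1 (e _ (i1.le ⟨n, rfl⟩))⟩
  simp only [Cr_iff]
  simp only [e]
  simp only [m]
  refine ⟨fun h => ⟨k (A, C), (Ok_iff ..).2 fun ⟨y, f, i⟩ => ?_⟩, fun ⟨j, h⟩ w _ => ?_⟩
  · obtain ⟨y, f, l, i⟩ := (h2 A).wit (k := k (A, C) + 1) (fun x l => Prod.ext (hp C _ (by simp [k]; omega) x l)
      (ht_ball (Nat.lt_succ_self _) x l)) f i
    obtain ⟨w, rfl⟩ := V.enc f i.1
    obtain ⟨v, a, b⟩ := hc _ w fun y i => cast (congrArg Prod.fst (l y i))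
    obtain ⟨i1, i2⟩ : T v = T w ∧ mk v = mk w := Prod.ext_iff.1 a
    exact (Bad_enc ..).1 i (by simpa only [Ok, a, i1, i2] using h v b)
  · obtain ⟨S, -, l, i⟩ := (h1 A).wit (hp C _ (Nat.lt_succ_self _)) (u := ball j) ((List.finite_length_le _ j).subset fun y i =>
      show y.length ≤ j from not_lt.1 fun l => i (ht_ball (Nat.lt_succ_self _) y l)) ((Ok_iff ..).1 h)
    exact fun a b => ((Ok_iff ..).2 i w a b).imp fun v h => ⟨h.1, h.2.1, h.2.2.1, fun g i => lf_word.2 (not_lt.1 fun n => cast (l _ n.le) (h.2.2.2 g i))⟩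

def au [Primcodable X] (L : List (List (X × Bool))) : Au X := ((L ++ L.map invRev).flatMap fun a =>
  (0, none, Encodable.encode a) :: (tl a).map fun v => (Encodable.encode v, v.head?, Encodable.encode v.tail), [0])

omit [DecidableEq X] in
theorem pr_au [Primcodable X] : Primrec (au (X := X)) :=
  (Primrec.list_flatMap (Primrec.list_append.comp .id (Primrec.list_map .id (pr_inv.comp .snd).to₂)) (Primrec.list_cons.comp
    ((Primrec.const 0).pair ((Primrec.const none).pair (Primrec.encode.comp .snd))) (Primrec.list_map (pr_tl.comp .snd)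
      ((Primrec.encode.comp .snd).pair ((Primrec.list_head?.comp .snd).pair (Primrec.encode.comp (Primrec.list_tail.comp .snd)))).to₂)).to₂).pair
    (.const _)

omit [DecidableEq X] in
theorem K_au [Primcodable X] (L : List (List (X × Bool))) (m) : K (au L) m ↔ m = mu [] ∨ Gen L m := by
  have : K (au L) m ↔ ∃ l : List (List (X × Bool)), (∀ a ∈ l, a ∈ L ++ L.map invRev) ∧ mu l.flatten = m := by
    refine ⟨fun ⟨v, p, a, b, c⟩ => ?_, ?_⟩
    · suffices ∀ s : List (X × Bool), p = Encodable.encode s → ∃ l : List (List (X × Bool)), (∀ a ∈ l, a ∈ L ++ L.map invRev) ∧ l.flatten = v ++ s by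
        obtain ⟨l, i, j⟩ := this [] (by simpa [au] using b)
        exact ⟨l, i, by simpa [j] using c⟩
      clear b c
      induction a with
      | base => exact fun s e => ⟨[], by simp, by simp [Encodable.encode_injective (a₂ := []) e.symm]⟩
      | step _ b ih =>
        intro s e
        obtain ⟨a, i, b⟩ := List.mem_flatMap.1 b
        obtain ⟨⟨⟩⟩ | b := List.mem_cons.1 b
        · obtain ⟨l, j, k⟩ := ih [] rfl
          exact ⟨l ++ [a], by simpa [or_imp, forall_and] using ⟨by simpa [or_imp, forall_and] using j, by simpa using i⟩,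
            by simp [k, Encodable.encode_injective e]⟩
        · obtain ⟨u, -, ⟨⟩⟩ := List.mem_map.1 b
          obtain ⟨l, j, k⟩ := ih u rfl
          exact ⟨l, j, by rw [k, ← Encodable.encode_injective e]; cases u <;> simp⟩
    · rintro ⟨l, i, rfl⟩
      refine ⟨_, 0, ?_, by simp [au], rfl⟩
      induction l using List.reverseRecOn with
      | nil => exact .base
      | append_singleton l a ih =>
        have j := i a (by simp)
        have : ∀ (s : List (X × Bool)) v, s <:+ a → MP_5c1719_al.Acc (au L) v (Encodable.encode s) → MP_5c1719_al.Acc (au L) (v ++ s) 0 := by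
          intro s
          induction s with
          | nil => exact fun v _ h => (List.append_nil v).symm ▸ h
          | cons x s ih =>
            exact fun v k h => List.append_cons .. ▸ ih _ ((List.suffix_cons ..).trans k) (h.step (a := some x) (List.mem_flatMap.2 ⟨a, j, .tail _ (List.mem_map.2 ⟨_, mem_tl.2 k, rfl⟩)⟩))
        simpa using this a _ List.suffix_rfl ((ih fun x k => i x (by simp [k])).step (a := none) (List.mem_flatMap.2 ⟨a, j, .head _⟩))
  refine this.trans ⟨fun ⟨l, i, j⟩ => ?_, ?_⟩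
  · obtain rfl | k := eq_or_ne l []
    exacts [.inl j.symm, .inr ⟨l, k, i, j⟩]
  · rintro (rfl | ⟨l, -, i⟩)
    exacts [⟨[], by simp, rfl⟩, ⟨l, i⟩]

end Pool.Agent.H.MP_d35c37_al
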